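import Pool.Agent.R538.PC.Hard

/-!
# Deciding whether a planar triangle-free graph has c-chromatic number two is NP-hard

Reduction from 3-SAT.  A gadget on 19 vertices (from the graph with c-chromatic number three on 55
vertices) forces two vertices to be in the same part of any partition into two cographs; it can be
drawn in a thin neighbourhood of a segment.  The formula is laid out on a grid of tiles (crossing,
branching, negation, wires, turns, clauses) built from such equality links and a few induced paths
on four vertices, each of which forbids that its four vertices get the same colour.
-/

set_option autoImplicit false

namespace Pool.Agent.Results.MP_464849_lc.NPHard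

open Pool.Agent.NPC Pool.Agent.R550.GB Pool.Agent.R538.PC

/-- Every language in NP reduces in polynomial time to the question whether `c(G) = 2`, with all
graphs produced by the reduction planar and triangle-free. -/
theorem result : ∀ L : Set (List Bool), InNP L → ∃ f : List Bool → List (List ℕ),
    PolyTime (fun x => bits (f x)) ∧
    (∀ x, IsPlanar (graph (f x)) ∧ (graph (f x)).CliqueFree 3) ∧
    ∀ x, x ∈ L ↔ cChromaticNumber (graph (f x)) = 2 :=
  c_hard

end Pool.Agent.Results.MP_464849_lc.NPHard
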